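import Pool.Agent.H8.VR.Targets

/-!
# Two-variable logic over context-free classes: assembly
-/

set_option autoImplicit false

namespace Pool.Agent.H70.VR

open Pool.Agent.H69.Sp Pool.Agent.H69.Mt Pool.Agent.H8.VR

/-- the theorem for systems and the translation of formulas give the theorem -/
theorem fi (hSY : T_SY) (hN1 : T_N1) : T_VR := by
  intro N Q _ _ G hG m s₀ φ
  obtain ⟨Q', L, T, C, O, iQ, iL, iT, iC, iO, iN, S, K, Ok, hK, hD, hn⟩ := hN1 N Q G m s₀ φ
  have h := hSY N Q' L T O C S K s₀ Ok hK (fun o => by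
    obtain ⟨o', ho', he⟩ := hD o
    rw [he]
    exact hG o' ho')
  have e1 : specG G m s₀ φ = {n | 0 < n ∧ SysMem S K s₀ Ok n} := Set.ext hn
  have e2 : posCompl (specG G m s₀ φ) = {n | 0 < n ∧ ¬ SysMem S K s₀ Ok n} := by
    ext n
    constructor
    · rintro ⟨h0, h1⟩
      exact ⟨h0, fun h2 => h1 ((hn n).2 ⟨h0, h2⟩)⟩
    · rintro ⟨h0, h1⟩
      exact ⟨h0, fun h2 => h1 ((hn n).1 h2).2⟩
  rw [e2, e1]
  exact h

end Pool.Agent.H70.VR
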